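import Pool.Agent.H91.FA2

set_option autoImplicit false

open H91FA H91FB in
theorem Pool.Agent.Results.MP_12dd5c_an.NoFnA.result :
   
    ∃ (A : Type) (_ : NormedAddCommGroup A) (_ : NormedSpace ℂ A) (_ : CompleteSpace A)
      (m : A →L[ℂ] A →L[ℂ] A) (M : Type) (_ : CStarAlgebra M) (j : M → StrongDual ℂ A),
        IsF m j ∧ TLIM m (j 1) (P1 j) (IsAP m) ∧ ¬ FnA m (P1 j) 1 :=
  mainA
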